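import Pool.Agent.ConfSewing.Conformal
import Pool.Agent.ConfSewing.Beta
import Pool.Agent.ConfSewing.Double

set_option autoImplicit false

open Set

namespace Pool.Agent.Results.MP_c26c1b_an.Unstable

open Pool.Agent.ConfSewing

/-- The answer to Q1 is negative. There is a conformal sewing `α` of the half-strip (in fact
`α(x) = 2x`) whose end at infinity is hyperbolic, for every Riemann surface structure on `H_α`
compatible with the half-strip, and which has no stability function: for every positive continuous
`ε` on `(0, ∞)` there is a conformal sewing `β` with `|β - α| < ε` on `(0, ∞)` whose end at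
infinity is not hyperbolic, for any compatible Riemann surface structure on `H_β`. -/
theorem result : ∃ α : Sewing, α.IsConformal ∧
    (∀ cs : ChartedSpace ℂ α.Surf, α.IsRiemannStructure cs → α.HasHyperbolicEnd cs) ∧
    ∀ ε : ℝ → ℝ, ContinuousOn ε (Ioi 0) → (∀ x : ℝ, 0 < x → 0 < ε x) →
      ∃ β : Sewing, β.IsConformal ∧
        (∀ x : ℝ, 0 < x → |β.toFun x - α.toFun x| < ε x) ∧
        ∀ cs : ChartedSpace ℂ β.Surf, β.IsRiemannStructure cs → ¬ β.HasHyperbolicEnd cs := by
  refine ⟨dbl, dbl_conformal, dbl_hyperbolic, ?_⟩
  intro ε hε hpos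
  obtain ⟨m, hm, hs, hclose⟩ := exists_params ε hε hpos
  exact ⟨betaSewing m hm, Sewing.isConformal_of_germs fun x _ => bet_PLH m hm x, hclose,
    betaSewing_not_hyperbolic m hm hs⟩

end Pool.Agent.Results.MP_c26c1b_an.Unstable
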